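import Pool.Agent.NH38.Step.C2

/-!
Project OS (helper38): off-diagonally symmetric alternating sign matrices of odd order (frozen
statement `S11587`). Definitions, and statements of the tasks (nothing is proved here but a few
facts on the constants).

Six vertex model with a reflecting diagonal. A state is a map `s : ℕ → Bool`; line `i` carries the
edge state `s i` (partial row sums). The vertex of the lines `i < j` acts by `Rop h i j (u i * u j)`,
the diagonal vertex of the line `j` by `Kop h t j (u j)`, `t` counts the nonzero diagonal entries.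
-/

namespace Pool.Agent.NH38.OS

open Pool.Agent.NH38.Step (zs on om)
open Polynomial Filter Topology

/-! ## the model -/

noncomputable def sg (x : ℂ) : ℂ := x - x⁻¹

/-- flip the entry `i` -/
def fl (i : ℕ) (s : ℕ → Bool) : ℕ → Bool := Function.update s i (!(s i))

abbrev Vec := (ℕ → Bool) → ℂ

noncomputable def Rop (h : ℂ) (i j : ℕ) (x : ℂ) (f : Vec) : Vec := fun s =>
  if s i = s j then sg (h^2 * x) * f s + sg (h^4) * f (fl i (fl j s)) else sg (h^2 / x) * f s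

noncomputable def Kop (h t : ℂ) (j : ℕ) (x : ℂ) (f : Vec) : Vec := fun s =>
  sg (h * x) * f s + t * f (fl j s)

/-- the intertwiner, `r = x/y` -/
noncomputable def Sop (h : ℂ) (k l : ℕ) (r : ℂ) (f : Vec) : Vec := fun s =>
  if s k = s l then sg (h^4 * r) * f s else sg (h^4) * f s - sg r * f (fl k (fl l s))

/-- the column `m` crosses the rows `0, …, n-1` -/
noncomputable def Cop (h : ℂ) (u : ℕ → ℂ) (m : ℕ) : ℕ → Vec → Vec
  | 0, f => f
  | n+1, f => Rop h n m (u n * u m) (Cop h u m n f)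

open Classical in
/-- the vacuum -/
noncomputable def vac : Vec := fun s => if ∀ i, s i = false then 1 else 0

/-- the vector of `m` lines -/
noncomputable def Phi (h t : ℂ) (u : ℕ → ℂ) : ℕ → Vec
  | 0 => vac
  | m+1 => Kop h t m (u m) (Cop h u m m (Phi h t u m))

/-- its derivative at `t = 0` -/
noncomputable def Phi1 (h : ℂ) (u : ℕ → ℂ) : ℕ → Vec
  | 0 => fun _ => 0
  | m+1 => fun s => sg (h * u m) * Cop h u m m (Phi1 h u m) s +
      Cop h u m m (Phi h 0 u m) (fl m s)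

/-- the state `1^m` -/
def top (m : ℕ) : ℕ → Bool := fun i => decide (i < m)

/-! ## the constants -/

/-- `e^(i π/6)` -/
noncomputable def hh : ℂ := ⟨Real.sqrt 3 / 2, 1/2⟩
/-- `e^(i π/3)` -/
noncomputable def pp : ℂ := hh^2

theorem hh_sq : hh^2 = ⟨1/2, Real.sqrt 3 / 2⟩ := by
  have h : Real.sqrt 3 * Real.sqrt 3 = 3 := Real.mul_self_sqrt (by norm_num)
  apply Complex.ext
  · simp [hh, pow_two]; nlinarith
  · simp [hh, pow_two]; ring

theorem hh_spec : hh^4 - hh^2 + 1 = 0 := by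
  have h : Real.sqrt 3 * Real.sqrt 3 = 3 := Real.mul_self_sqrt (by norm_num)
  have : hh^4 = hh^2 * hh^2 := by ring
  rw [this, hh_sq]
  apply Complex.ext
  · simp; nlinarith
  · simp; ring

theorem hh_ne : hh ≠ 0 := by
  intro h
  have := hh_spec
  rw [h] at this
  norm_num at this

theorem pp_spec : pp^2 - pp + 1 = 0 := by
  have := hh_spec
  unfold pp
  linear_combination this

theorem pp_ne : pp ≠ 0 := pow_ne_zero _ hh_ne

theorem pp_cube : pp^3 = -1 := by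
  linear_combination (pp + 1) * pp_spec

/-- `q` of the library, `e^(2 i π/3)` -/
theorem pp_sq : pp^2 = Pool.Agent.H988R2.Perc.q := by
  have h : Real.sqrt 3 * Real.sqrt 3 = 3 := Real.mul_self_sqrt (by norm_num)
  unfold pp Pool.Agent.H988R2.Perc.q
  rw [hh_sq, pow_two]
  apply Complex.ext
  · simp; nlinarith
  · simp; ring

theorem hh_four : hh^4 = pp^2 := by unfold pp; ring

theorem hh_six : hh^6 = -1 := by rw [← pp_cube]; unfold pp; ring

theorem hh_inv : hh⁻¹ = -hh^5 := by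
  rw [inv_eq_iff_eq_inv, ← mul_eq_one_iff_eq_inv₀ (by simp [hh_ne])]
  linear_combination (-1) * hh_six

theorem sg_pp : sg pp = 2 * pp - 1 := by
  unfold sg
  have h : pp⁻¹ = -pp^2 := by
    rw [inv_eq_iff_eq_inv, ← mul_eq_one_iff_eq_inv₀ (by simp [pp_ne])]
    linear_combination (-1) * pp_cube
  rw [h]
  linear_combination pp_spec

theorem sg_pp_sq : (sg pp)^2 = -3 := by
  rw [sg_pp]
  linear_combination 4 * pp_spec

theorem sg_pp2 : sg (pp^2) = sg pp := by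
  have h : pp⁻¹ = -pp^2 := by
    rw [inv_eq_iff_eq_inv, ← mul_eq_one_iff_eq_inv₀ (by simp [pp_ne])]
    linear_combination (-1) * pp_cube
  unfold sg
  rw [← inv_pow, h]
  linear_combination (-pp) * pp_cube

theorem sg_hh : sg hh = Complex.I := by
  unfold sg
  rw [Complex.inv_def]
  have h : Real.sqrt 3 * Real.sqrt 3 = 3 := Real.mul_self_sqrt (by norm_num)
  have h1 : Complex.normSq hh = 1 := by
    simp [hh, Complex.normSq_apply]; nlinarith
  rw [h1]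
  apply Complex.ext
  · simp [hh]
  · simp [hh]; norm_num

/-! ## the partition function -/

/-- the parameters of a list -/
noncomputable def ul (l : List ℂ) : ℕ → ℂ := fun i => l.getD i 1

open Classical in
/-- the partition function: no (even length) or one (odd length) nonzero diagonal entry -/
noncomputable def W (l : List ℂ) : ℂ :=
  if Even l.length then Phi hh 0 (ul l) l.length (top l.length)
  else Phi1 hh (ul l) l.length (top l.length)

/-! ## TASKS A: the model -/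

/-- operators on disjoint sets of lines commute -/
def S_Comm : Prop := ∀ (h t x y : ℂ) (i j k l : ℕ) (_ : i ≠ k) (_ : i ≠ l) (_ : j ≠ k) (_ : j ≠ l)
  (f : Vec), Rop h i j x (Rop h k l y f) = Rop h k l y (Rop h i j x f) ∧
  Sop h i j x (Rop h k l y f) = Rop h k l y (Sop h i j x f) ∧
  Sop h i j x (Kop h t k y f) = Kop h t k y (Sop h i j x f) ∧
  Rop h i j x (Kop h t k y f) = Kop h t k y (Rop h i j x f) ∧
  Kop h t i x (Kop h t k y f) = Kop h t k y (Kop h t i x f)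

def S_YBE : Prop := ∀ (h x y z : ℂ) (_ : h ≠ 0) (_ : x ≠ 0) (_ : y ≠ 0) (_ : z ≠ 0) (k l j : ℕ)
  (_ : k ≠ l) (_ : k ≠ j) (_ : l ≠ j) (f : Vec),
  Sop h k l (x/y) (Rop h l j (y*z) (Rop h k j (x*z) f)) =
    Rop h l j (x*z) (Rop h k j (y*z) (Sop h k l (x/y) f))

def S_RE : Prop := ∀ (h t x y : ℂ) (_ : h ≠ 0) (_ : x ≠ 0) (_ : y ≠ 0) (k l : ℕ)
  (_ : k ≠ l) (f : Vec),
  Sop h k l (x/y) (Kop h t l y (Rop h k l (x*y) (Kop h t k x f))) =
    Kop h t l x (Rop h k l (x*y) (Kop h t k y (Sop h k l (x/y) f)))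

/-- the parameters with `k`, `k+1` exchanged -/
noncomputable def sw (k : ℕ) (u : ℕ → ℂ) : ℕ → ℂ := u ∘ (Equiv.swap k (k+1))

/-- exchange relation -/
def S_Exch : Prop := ∀ (h t : ℂ) (u : ℕ → ℂ) (m k : ℕ) (_ : h ≠ 0) (_ : ∀ i, u i ≠ 0)
  (_ : k + 1 < m), Sop h k (k+1) (u k / u (k+1)) (Phi h t u m) =
    fun s => sg (h^4 * (u k / u (k+1))) * Phi h t (sw k u) m s

/-- support -/
def S_Supp : Prop := ∀ (h t : ℂ) (u : ℕ → ℂ) (m i : ℕ) (s : ℕ → Bool) (_ : m ≤ i)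
  (_ : s i = true), Phi h t u m s = 0 ∧ Phi1 h u m s = 0

/-- dependence on the first parameters only -/
def S_Loc : Prop := ∀ (h t : ℂ) (u v : ℕ → ℂ) (m : ℕ) (_ : ∀ i < m, u i = v i),
  Phi h t u m = Phi h t v m ∧ Phi1 h u m = Phi1 h v m

/-- `Phi1` is the derivative -/
def S_Der : Prop := ∀ (h : ℂ) (u : ℕ → ℂ) (m : ℕ) (s : ℕ → Bool),
  HasDerivAt (fun t => Phi h t u m s) (Phi1 h u m s) 0

/-- the last column -/
def S_LC : Prop := ∀ (h : ℂ) (u : ℕ → ℂ) (m n : ℕ) (s : ℕ → Bool) (f : Vec) (_ : n ≤ m)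
  (_ : ∀ s, s m = true → f s = 0) (_ : ∀ i < n, s i = true),
  (s m = false → Cop h u m n f s = (∏ i ∈ Finset.range n, sg (h^2 / (u i * u m))) * f s) ∧
  (s m = true → Cop h u m n f s = ∑ k ∈ Finset.range n,
    (∏ i ∈ Finset.range k, sg (h^2 / (u i * u m))) * sg (h^4) *
    (∏ i ∈ Finset.Ico (k+1) n, sg (h^2 * (u i * u m))) * f (fl k (fl m s)))

/-- the value at the top state -/
def S_Top : Prop := ∀ (h t : ℂ) (u : ℕ → ℂ) (m : ℕ),
  Phi h t u (m+1) (top (m+1)) = sg (h * u m) * (∑ k ∈ Finset.range m,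
    (∏ i ∈ Finset.range k, sg (h^2 / (u i * u m))) * sg (h^4) *
    (∏ i ∈ Finset.Ico (k+1) m, sg (h^2 * (u i * u m))) * Phi h t u m (fl k (top m))) +
    t * (∏ i ∈ Finset.range m, sg (h^2 / (u i * u m))) * Phi h t u m (top m) ∧
  Phi1 h u (m+1) (top (m+1)) = sg (h * u m) * (∑ k ∈ Finset.range m,
    (∏ i ∈ Finset.range k, sg (h^2 / (u i * u m))) * sg (h^4) *
    (∏ i ∈ Finset.Ico (k+1) m, sg (h^2 * (u i * u m))) * Phi1 h u m (fl k (top m))) +
    (∏ i ∈ Finset.range m, sg (h^2 / (u i * u m))) * Phi h 0 u m (top m)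

/-- the first row -/
def S_Row : Prop := ∀ (h t : ℂ) (u : ℕ → ℂ) (m : ℕ) (s : ℕ → Bool) (_ : s 0 = false),
  Phi h t u (m+1) s = sg (h * u 0) * (∏ j ∈ Finset.range m, sg (h^2 * (u 0 * u (j+1)))) *
    Phi h t (fun i => u (i+1)) m (fun i => s (i+1)) ∧
  Phi1 h u (m+1) s = sg (h * u 0) * (∏ j ∈ Finset.range m, sg (h^2 * (u 0 * u (j+1)))) *
    Phi1 h (fun i => u (i+1)) m (fun i => s (i+1))

/-- continuity in the parameters -/
def S_Cont : Prop := ∀ (t : ℂ) (g : ℕ → ℂ → ℂ) (z0 : ℂ) (_ : ∀ i, ContinuousAt (g i) z0)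
  (_ : ∀ i, g i z0 ≠ 0) (m : ℕ) (s : ℕ → Bool),
  ContinuousAt (fun z => Phi hh t (fun i => g i z) m s) z0 ∧
  ContinuousAt (fun z => Phi1 hh (fun i => g i z) m s) z0

/-! ## TASKS B: the partition function `W` -/

def NZ (l : List ℂ) : Prop := ∀ x ∈ l, x ≠ 0

def S_W0 : Prop := W [] = 1 ∧ ∀ x, W [x] = 1

def S_WC : Prop := ∀ (n : ℕ) (g : Fin n → ℂ → ℂ) (z0 : ℂ) (_ : ∀ i, ContinuousAt (g i) z0)
  (_ : ∀ i, g i z0 ≠ 0), ContinuousAt (fun z => W (List.ofFn fun i => g i z)) z0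

def S_WP : Prop := ∀ (l l' : List ℂ) (_ : l.Perm l') (_ : NZ l), W l = W l'

def S_WD : Prop := ∀ (l : List ℂ) (_ : NZ l), ∃ P : ℂ[X], P.natDegree ≤ l.length ∧
  ∀ x ≠ 0, W (l ++ [x]) * x^l.length = P.eval (x^2)

def S_WR1 : Prop := ∀ (l : List ℂ) (x : ℂ) (_ : NZ l) (_ : x ≠ 0),
  W (x :: (l ++ [pp/x])) = sg (pp^2) * sg (hh * x) * sg (hh * pp / x) *
    (l.map (fun y => sg (pp * (x * y)) * sg (pp * (y * (pp / x))))).prod * W l

def S_WR2 : Prop := ∀ (l : List ℂ) (_ : NZ l),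
  (Odd l.length → W (l ++ [hh⁻¹]) = 0) ∧
  (Even l.length → W (l ++ [hh⁻¹]) = (l.map (fun y => sg (pp / (y * hh⁻¹)))).prod * W l)

/-! ## TASKS C: the bridge to matrices -/

/-- the vertex at `u = 1` -/
def Rc (i j : ℕ) (f : Vec) : Vec := fun s => if s i = s j then f s + f (fl i (fl j s)) else f s

def Cc (m : ℕ) : ℕ → Vec → Vec
  | 0, f => f
  | n+1, f => Rc n m (Cc m n f)

noncomputable def Qc (x t : ℂ) : ℕ → Vec
  | 0 => vac
  | m+1 => fun s => x * Cc m m (Qc x t m) s + t * Cc m m (Qc x t m) (fl m s)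

/-- homogeneous specialisation -/
def S_C1 : Prop := ∀ (t : ℂ) (m : ℕ) (s : ℕ → Bool),
  Phi hh t (fun _ => 1) m s = (sg pp)^(m*(m-1)/2) * Qc (sg hh) t m s

/-- extension by `false` -/
def ex {n : ℕ} (h : Fin n → Bool) : ℕ → Bool := fun i => if hi : i < n then h ⟨i, hi⟩ else false

/-- partial sums of a column -/
def VS (s h : ℕ → Bool) (k : ℕ) : ℤ :=
  ∑ i ∈ Finset.range k, ((if s i then 1 else 0) - (if h i then 1 else 0))

open Classical in
/-- the column operator as a sum over states -/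
def S_C2 : Prop := ∀ (m : ℕ) (f : Vec) (s : ℕ → Bool) (_ : ∀ s i, m ≤ i → s i = true → f s = 0)
  (_ : ∀ i, m < i → s i = false),
  Cc m m f s = ∑ h : Fin m → Bool, if (∀ k ≤ m, VS s (ex h) k = 0 ∨ VS s (ex h) k = 1) ∧
    VS s (ex h) m = (if s m then 1 else 0) then f (ex h) else 0

/-- symmetric matrices with partial row sums in `{0,1}` and row sums `s` -/
def PM (m : ℕ) (s : ℕ → Bool) : Set (Matrix (Fin m) (Fin m) ℤ) :=
  {A | (∀ i j, A i j = A j i) ∧ (∀ i k, (∑ j ∈ Finset.Iic k, A i j) = 0 ∨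
    (∑ j ∈ Finset.Iic k, A i j) = 1) ∧ ∀ i : Fin m, ∑ j, A i j = if s i then 1 else 0}

open Classical in
noncomputable def PMf (m : ℕ) (s : ℕ → Bool) : Finset (Matrix (Fin m) (Fin m) ℤ) :=
  (Fintype.piFinset fun _ : Fin m => Fintype.piFinset fun _ : Fin m =>
    ({-1, 0, 1} : Finset ℤ)).filter (fun A => A ∈ PM m s)

def S_C3 : Prop := ∀ (m : ℕ) (s : ℕ → Bool) (A : Matrix (Fin m) (Fin m) ℤ),
  A ∈ PMf m s ↔ A ∈ PM m s

/-- weighted sum -/
noncomputable def QM (x t : ℂ) (m : ℕ) (s : ℕ → Bool) : ℂ :=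
  ∑ A ∈ PMf m s, ∏ i, if A i i = 0 then x else t

open Classical in
/-- recursion for the weighted sum of matrices -/
def S_C4 : Prop := ∀ (x t : ℂ) (m : ℕ) (s : ℕ → Bool),
  QM x t (m+1) s = ∑ h : Fin m → Bool, if (∀ k ≤ m, VS s (ex h) k = 0 ∨ VS s (ex h) k = 1) then
    (if VS s (ex h) m = (if s m then 1 else 0) then x else t) * QM x t m (ex h) else 0

/-- the two recursions agree -/
def S_C5 : Prop := ∀ (x t : ℂ) (m : ℕ) (s : ℕ → Bool) (_ : ∀ i, m ≤ i → s i = false),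
  Qc x t m s = QM x t m s

/-- the count of the frozen statement -/
noncomputable def cnt (n : ℕ) : ℕ :=
  Nat.card {A : Matrix (Fin (2 * n + 1)) (Fin (2 * n + 1)) ℤ //
          (∀ i j, A i j = -1 ∨ A i j = 0 ∨ A i j = 1) ∧
          (∀ i k, (∑ j ∈ Finset.Iic k, A i j) = 0 ∨ (∑ j ∈ Finset.Iic k, A i j) = 1) ∧
          (∀ i, (∑ j, A i j) = 1) ∧
          (∀ j k, (∑ i ∈ Finset.Iic k, A i j) = 0 ∨ (∑ i ∈ Finset.Iic k, A i j) = 1) ∧
          (∀ j, (∑ i, A i j) = 1) ∧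
          (∀ i j, A i j = A j i) ∧
          (∃ d : Fin (2 * n + 1), ∀ i, i ≠ d → A i i = 0)}

/-- the derivative of the weighted sum of matrices is the count -/
def S_C6 : Prop := ∀ (x : ℂ) (n : ℕ), HasDerivAt (fun t => QM x t (2*n+1) (top (2*n+1)))
  ((cnt n : ℂ) * x^(2*n)) 0

/-- the bridge -/
def S_Bridge : Prop := ∀ n : ℕ,
  W (on (2*n+1)) = (cnt n : ℂ) * (sg pp)^(n*(2*n+1)) * (sg hh)^(2*n)

/-! ## TASKS D: the formulas for generic parameters -/

/-- generic position -/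
def Gen {ι : Type} (u : ι → ℂ) : Prop :=
  (∀ i, u i ≠ 0 ∧ (u i)^12 ≠ 1) ∧ ∀ i j, i ≠ j → (u i)^12 ≠ (u j)^12 ∧ (u i * u j)^12 ≠ 1

noncomputable def ff (x y : ℂ) : ℂ := sg (pp * (x * y)) * sg (pp / (x * y))

/-- the list of the parameters -/
noncomputable def ls {ι : Type} (u : ι → ℂ) (s : Finset ι) : List ℂ := s.toList.map u

/-- the list of their squares -/
noncomputable def lq {ι : Type} (u : ι → ℂ) (s : Finset ι) : List ℂ :=
  s.toList.map (fun i => (u i)^2)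

open Classical in
noncomputable def CC {ι : Type} (u : ι → ℂ) (s : Finset ι) (i : ι) : ℂ :=
  ∏ j ∈ s.erase i, ff (u i) (u j) / sg (u j / u i)

/-- degree and recursion of `zs` -/
def S_Z1 : Prop := ∀ (l : List ℂ) (_ : NZ l),
  (Odd l.length → ∃ P : ℂ[X], P.natDegree ≤ l.length - 1 ∧
    ∀ x ≠ 0, zs (l ++ [x]) * x^((l.length-1)/2) = P.eval x) ∧
  (∀ x ≠ 0, Even l.length → zs (x :: (l ++ [pp^2 / x])) =
    (l.map (fun y => -(y + y⁻¹) - (x / pp + pp / x))).prod * zs l)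

/-- even length -/
def S_EV : Prop := ∀ {ι : Type} (u : ι → ℂ) (_ : Gen u) (s : Finset ι) (_ : Even s.card),
  W (ls u s) = (sg (pp^2))^(s.card/2) * (∏ i ∈ s, sg (hh * u i)) * zs (lq u s)

def S_EVX : Prop := ∀ {ι : Type} (u : ι → ℂ) (_ : Gen u) (s : Finset ι) (_ : Odd s.card) (x : ℂ)
  (_ : x ≠ 0), W (ls u s ++ [x]) = (sg (pp^2))^((s.card+1)/2) * (∏ i ∈ s, sg (hh * u i)) *
    sg (hh * x) * zs (lq u s ++ [x^2])

open Classical in
/-- odd length, last parameter free -/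
def S_ODX : Prop := ∀ {ι : Type} (u : ι → ℂ) (_ : Gen u) (s : Finset ι) (_ : Even s.card) (x : ℂ)
  (_ : x ≠ 0) (_ : ∀ i ∈ s, x^2 ≠ (u i)^2), W (ls u s ++ [x]) =
    ∑ i ∈ s, CC u s i * (ff (u i) x / sg (x / u i)) * W (ls u (s.erase i) ++ [x]) +
    (∏ j ∈ s, ff x (u j) / sg (u j / x)) * W (ls u s)

open Classical in
/-- odd length -/
def S_OD : Prop := ∀ {ι : Type} (u : ι → ℂ) (_ : Gen u) (s : Finset ι) (_ : Odd s.card),
  W (ls u s) = ∑ i ∈ s, CC u s i * W (ls u (s.erase i))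

open Classical in
/-- expansion of `zs` at an additional parameter -/
def S_E : Prop := ∀ {ι : Type} (u : ι → ℂ) (_ : Gen u) (s : Finset ι) (_ : Odd s.card) (v : ℂ)
  (_ : v ≠ 0) (_ : ∀ i ∈ s, v^2 ≠ (u i)^2), zs (lq u s ++ [v^2]) =
    ∑ i ∈ s, CC u s i * (∏ j ∈ s.erase i, ff v (u j) / sg (v / u j)) * zs (lq u (s.erase i))

/-- the trick -/
def S_TR : Prop := ∀ {ι : Type} (u : ι → ℂ) (_ : Gen u) (s : Finset ι) (_ : Odd s.card),
  W (ls u s) / (∏ i ∈ s, sg (hh * u i)) + W (ls (fun i => (u i)⁻¹) s) / (∏ i ∈ s, sg (hh / u i)) =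
    (sg (pp^2))^(s.card/2) * sg hh * Complex.I * zs (lq u s ++ [-1]) *
    ∏ i ∈ s, (Complex.I * (u i + (u i)⁻¹) / ((u i)^2 + ((u i)^2)⁻¹ - 1))

/-- the homogeneous limit -/
def S_Lim : Prop := ∀ n : ℕ, W (on (2*n+1)) = 4^n * (sg pp)^n * zs (on (2*n+1) ++ [-1])

/-! ## TASKS E: evaluation -/

def S_Zm : Prop := ∀ n : ℕ, zs (on (2*n+1) ++ [-1]) =
  ((Pool.Agent.H988R2.Perc.chi (2*n+1) * ((6*(n:ℝ)+4) / 4^(n+1)) *
    ∏ k ∈ Finset.range n, (6*(k:ℝ)+4) / (6*k+5) : ℝ) : ℂ)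

def S_Pr : Prop := ∀ n : ℕ, 1 ≤ n →
  Pool.Agent.H988R2.Perc.chi (2*n+1) * ((3*(n:ℝ)+2) / 2) *
    (∏ k ∈ Finset.range n, (6*(k:ℝ)+4) / (6*k+5)) / 3^(n^2) =
  (2 : ℝ) ^ (n - 1) * ((Nat.factorial (3 * n + 2) : ℕ) : ℝ)
            / ((Nat.factorial (2 * n + 1) : ℕ) : ℝ)
          * ∏ i ∈ Finset.Icc 1 n,
              (((Nat.factorial (6 * i - 2) : ℕ) : ℝ)
                / ((Nat.factorial (2 * n + 2 * i + 1) : ℕ) : ℝ))

end Pool.Agent.NH38.OS
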