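import Pool.Agent.NH38.OS.Stm

/-!
Project OS (helper38): statements of the sub-tasks (nothing is proved here).
-/

namespace Pool.Agent.NH38.OS

open Pool.Agent.NH38.Step (zs on om)
open Polynomial Filter Topology

/-! ## sub-tasks of `S_Exch` -/

/-- symmetry of the vertex -/
def S_RS : Prop := ∀ (h x : ℂ) (i j : ℕ) (f : Vec), Rop h i j x f = Rop h j i x f

/-- the intertwiner passes through a later column -/
def S_X1 : Prop := ∀ (h : ℂ) (u : ℕ → ℂ) (k m n : ℕ) (_ : h ≠ 0) (_ : ∀ i, u i ≠ 0)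
  (_ : k + 2 ≤ n) (_ : n ≤ m) (f : Vec),
  Sop h k (k+1) (u k / u (k+1)) (Cop h u m n f) =
    Cop h (sw k u) m n (Sop h k (k+1) (u k / u (k+1)) f)

/-- the intertwiner passes through the rows of the columns `k`, `k+1` -/
def S_X2a : Prop := ∀ (h : ℂ) (u : ℕ → ℂ) (k n : ℕ) (_ : h ≠ 0) (_ : ∀ i, u i ≠ 0)
  (_ : n ≤ k) (f : Vec),
  Sop h k (k+1) (u k / u (k+1)) (Cop h u (k+1) n (Cop h u k n f)) =
    Cop h (sw k u) (k+1) n (Cop h (sw k u) k n (Sop h k (k+1) (u k / u (k+1)) f))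

/-- the intertwiner passes through the columns `k`, `k+1` -/
def S_X2 : Prop := ∀ (h t : ℂ) (u : ℕ → ℂ) (k : ℕ) (_ : h ≠ 0) (_ : ∀ i, u i ≠ 0) (f : Vec),
  Sop h k (k+1) (u k / u (k+1)) (Kop h t (k+1) (u (k+1)) (Cop h u (k+1) (k+1)
    (Kop h t k (u k) (Cop h u k k f)))) =
  Kop h t (k+1) (sw k u (k+1)) (Cop h (sw k u) (k+1) (k+1)
    (Kop h t k (sw k u k) (Cop h (sw k u) k k (Sop h k (k+1) (u k / u (k+1)) f))))

/-- TASK X1 -/
def T_X1 : Prop := S_Comm → S_RS → S_YBE → S_X1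
/-- TASK X2a -/
def T_X2a : Prop := S_Comm → S_RS → S_YBE → S_X2a
/-- TASK X2 -/
def T_X2 : Prop := S_Comm → S_RS → S_RE → S_X2a → S_X2
/-- TASK X3 -/
def T_X3 : Prop := S_Comm → S_Supp → S_Loc → S_X1 → S_X2 → S_Exch

/-! ## sub-tasks for `W` -/

/-- TASK Top -/
def T_Top : Prop := S_LC → S_Supp → S_Top

/-- adjacent exchange, generic -/
def S_WPa : Prop := ∀ (l1 l2 : List ℂ) (x y : ℂ) (_ : NZ l1) (_ : NZ l2) (_ : x ≠ 0) (_ : y ≠ 0)
  (_ : sg (pp^2 * (x / y)) ≠ 0), W (l1 ++ x :: y :: l2) = W (l1 ++ y :: x :: l2)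

/-- TASK WPa -/
def T_WPa : Prop := S_Exch → S_Der → S_Loc → S_WPa
/-- TASK WP -/
def T_WP : Prop := S_WPa → S_WC → S_WP
/-- TASK WC -/
def T_WC : Prop := S_Cont → S_Loc → S_WC
/-- TASK WD -/
def T_WD : Prop := S_Top → S_Loc → S_WD
/-- TASK WR1 -/
def T_WR1 : Prop := S_Top → S_Row → S_Loc → S_WR1
/-- TASK WR2 -/
def T_WR2 : Prop := S_Top → S_Loc → S_WR2

/-! ## sub-tasks of the bridge -/

/-- TASK C5 -/
def T_C5 : Prop := S_C2 → S_C4 → S_C5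
/-- TASK Bridge -/
def T_Bridge : Prop := S_C1 → S_C5 → S_C6 → S_Der → S_Loc → S_Bridge

/-! ## sub-tasks: even length -/

noncomputable def KX {ι : Type} (u : ι → ℂ) (s : Finset ι) (x : ℂ) : ℂ :=
  (sg (pp^2))^((s.card+1)/2) * (∏ i ∈ s, sg (hh * u i)) * sg (hh * x) * zs (lq u s ++ [x^2])

def S_EVa : Prop := ∀ {ι : Type} (u : ι → ℂ) (_ : Gen u) (s : Finset ι) (_ : Odd s.card),
  ∃ P : ℂ[X], P.natDegree ≤ s.card ∧
    ∀ x ≠ 0, (W (ls u s ++ [x]) - KX u s x) * x^s.card = P.eval (x^2)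

open Classical in
def S_EVb : Prop := ∀ {ι : Type} (u : ι → ℂ) (_ : Gen u) (s : Finset ι) (_ : Odd s.card) (k : ι)
  (_ : k ∈ s) (_ : W (ls u (s.erase k)) = (sg (pp^2))^((s.erase k).card/2) *
    (∏ i ∈ s.erase k, sg (hh * u i)) * zs (lq u (s.erase k))),
  W (ls u s ++ [pp / u k]) = KX u s (pp / u k)

def T_EVa : Prop := S_WD → S_Z1 → S_EVa
def T_EVb : Prop := S_WP → S_WR1 → S_Z1 → S_EVb
/-- conclusion; the node `x = hh⁻¹` is `S_WR2` -/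
def T_EV : Prop := S_W0 → S_WP → S_WR2 → S_EVa → S_EVb → (S_EV ∧ S_EVX)

/-! ## sub-tasks: odd length -/

open Classical in
noncomputable def LX {ι : Type} (u : ι → ℂ) (s : Finset ι) (x : ℂ) : ℂ :=
  W (ls u s ++ [x]) * ∏ j ∈ s, sg (x / u j)

open Classical in
noncomputable def RX {ι : Type} (u : ι → ℂ) (s : Finset ι) (x : ℂ) : ℂ :=
  ∑ i ∈ s, CC u s i * ff (u i) x * (∏ j ∈ s.erase i, sg (x / u j)) *
    W (ls u (s.erase i) ++ [x]) + (∏ j ∈ s, ff x (u j)) * W (ls u s)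

def S_DXa : Prop := ∀ {ι : Type} (u : ι → ℂ) (_ : Gen u) (s : Finset ι) (_ : Even s.card),
  ∃ P : ℂ[X], P.natDegree ≤ 2 * s.card ∧
    ∀ x ≠ 0, (LX u s x - RX u s x) * x^(2 * s.card) = P.eval (x^2)

def S_DXb : Prop := ∀ {ι : Type} (u : ι → ℂ) (_ : Gen u) (s : Finset ι) (_ : Even s.card) (k : ι)
  (_ : k ∈ s), LX u s (u k) = RX u s (u k)

open Classical in
def S_DXc : Prop := ∀ {ι : Type} (u : ι → ℂ) (_ : Gen u) (s : Finset ι) (_ : Even s.card) (k : ι)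
  (_ : k ∈ s) (_ : W (ls u (s.erase k)) =
    ∑ i ∈ s.erase k, CC u (s.erase k) i * W (ls u ((s.erase k).erase i))),
  LX u s (pp / u k) = RX u s (pp / u k)

def S_DXd : Prop := ∀ {ι : Type} (u : ι → ℂ) (_ : Gen u) (s : Finset ι) (_ : Even s.card),
  LX u s hh⁻¹ = RX u s hh⁻¹

def T_DXa : Prop := S_WD → S_DXa
def T_DXb : Prop := S_WP → S_DXb
def T_DXc : Prop := S_WP → S_WR1 → S_DXc
def T_DXd : Prop := S_WR2 → S_DXd
def T_OD : Prop := S_W0 → S_WP → S_DXa → S_DXb → S_DXc → S_DXd → (S_ODX ∧ S_OD)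

/-! ## sub-tasks: the expansion of `zs` -/

open Classical in
noncomputable def LE {ι : Type} (u : ι → ℂ) (s : Finset ι) (v : ℂ) : ℂ :=
  zs (lq u s ++ [v^2]) * ∏ j ∈ s, sg (v / u j)

open Classical in
noncomputable def RE {ι : Type} (u : ι → ℂ) (s : Finset ι) (v : ℂ) : ℂ :=
  ∑ i ∈ s, CC u s i * (∏ j ∈ s.erase i, ff v (u j)) * sg (v / u i) * zs (lq u (s.erase i))

def S_Ea : Prop := ∀ {ι : Type} (u : ι → ℂ) (_ : Gen u) (s : Finset ι) (_ : Odd s.card),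
  ∃ P : ℂ[X], P.natDegree ≤ 2 * s.card - 1 ∧
    ∀ v ≠ 0, (LE u s v - RE u s v) * v^(2 * s.card - 1) = P.eval (v^2)

def S_Eb : Prop := ∀ {ι : Type} (u : ι → ℂ) (_ : Gen u) (s : Finset ι) (_ : Odd s.card) (k : ι)
  (_ : k ∈ s), LE u s (pp / u k) = RE u s (pp / u k) ∧ LE u s (pp⁻¹ / u k) = RE u s (pp⁻¹ / u k)

def T_Ea : Prop := S_Z1 → S_Ea
def T_Eb : Prop := S_Z1 → S_Eb
def T_E : Prop := S_Ea → S_Eb → S_E

/-! ## the trick and the limit -/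

def T_TR : Prop := S_EV → S_OD → S_E → S_TR

/-- a generic family close to `1` -/
noncomputable def up (n : ℕ) (t : ℝ) : Fin n → ℂ := fun j => (t : ℂ)^((j : ℕ) + 1)

def S_Gen : Prop := ∀ (n : ℕ) (t : ℝ) (_ : 1 < t), Gen (up n t)

def T_Lim : Prop := S_Gen → S_WC → S_WP → S_TR → S_Lim

end Pool.Agent.NH38.OS
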